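import Mathlib
import Pool.Agent.V11109.Cake.Main

/-!
# Truthful cake cutting with positive values is impossible for two agents

The cake is `[0,1]`, densities are piecewise constant, pieces are finite unions of intervals and
the whole cake is allocated.  For every truthful mechanism for two agents there is a density `d`
with values in `{0,1}` such that, when both agents report `d`, one of them receives a piece of
value zero.

Idea.  Write `A(f,g)` for the piece of agent 1.  Agent 2 owns a set `Q` at `(1,1)`.  Facing `1_Q`,
agent 1 with density `1 + a 1_Q` gets nothing of `Q` for small `a` and a set `B` of positive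
measure just above a threshold.  Let `U(f,g)` be the utility of agent 1.  Truthfulness of agent 2
makes `U(.,g) - U(.,g')` nonincreasing in the direction `g` and nondecreasing in the direction
`g'`.  Moving `g` from `1_Q` to `1_B` in many small steps this shows that agent 1 can also get all
of `B` facing `1_B`, so agent 2 gets nothing at `(1_B, 1_B)`.
-/

set_option autoImplicit false

namespace Pool.Agent.Results.MP_b3d40b_lc.TwoAgentsZeroValue

open Pool.Agent.V11109.Cake

/-- For every truthful mechanism for two agents there are a density `d` with values in `{0,1}` and
an agent `i` such that agent `i` receives value zero when both agents report `d`. -/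
theorem result (M : Mechanism 2) (hM : M.Truthful) :
    ∃ (d : Density) (i : Fin 2), (∀ x, d.f x = 0 ∨ d.f x = 1) ∧
      value d (M.alloc (fun _ => d) i) = 0 := by
  by_contra hcon
  push Not at hcon
  refine no_two M hM ?_
  intro d hd i
  have h1 := hcon d i hd
  have e : (fun _ => d : Fin 2 → Density) = ![d, d] := by
    funext j; fin_cases j <;> simp
  rw [e] at h1
  refine lt_of_le_of_ne ?_ (Ne.symm h1)
  exact MeasureTheory.integral_nonneg (fun x => d.nonneg x)

end Pool.Agent.Results.MP_b3d40b_lc.TwoAgentsZeroValue
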